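import Mathlib

/-!
# Complex conjugates of an element of a field of characteristic zero

Two elements of fields of characteristic zero are called conjugate if they are roots of the same
polynomials with rational coefficients. For an algebraically closed field with the cardinality
of the complex numbers every complex conjugate of an element is its image under an embedding.
-/

set_option autoImplicit false

namespace Pool.Agent.U644.NC

open Polynomial Cardinal

theorem exists_algHom {R K L : Type} [CommRing R] [Nontrivial R] [Field K] [Field L] [Algebra R K]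
    [Algebra R L] [FaithfulSMul R K] [FaithfulSMul R L] [IsAlgClosed K] [IsAlgClosed L]
    (hR : #R ≤ ℵ₀) (hK : ℵ₀ < #K) (h : #K = #L) :
    ∃ f : K →+* L, ∀ r : R, f (algebraMap R K r) = algebraMap R L r := by
  obtain ⟨s, hs⟩ := exists_isTranscendenceBasis R K
  obtain ⟨t, ht⟩ := exists_isTranscendenceBasis R L
  have hst : #s = #t := by
    rw [← IsAlgClosed.cardinal_eq_cardinal_transcendence_basis_of_aleph0_lt' _ hs hR hK,
      ← IsAlgClosed.cardinal_eq_cardinal_transcendence_basis_of_aleph0_lt' _ ht hR (h ▸ hK), h]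
  obtain ⟨e⟩ := Cardinal.eq.1 hst
  let _ := IsAlgClosed.isAlgClosure_of_transcendence_basis _ hs
  let _ := IsAlgClosed.isAlgClosure_of_transcendence_basis _ ht
  let f : Algebra.adjoin R (Set.range ((↑) : s → K)) ≃ₐ[R]
      Algebra.adjoin R (Set.range ((↑) : t → L)) :=
    (hs.1.aevalEquiv.symm.trans (MvPolynomial.renameEquiv R e)).trans ht.1.aevalEquiv
  refine ⟨(IsAlgClosure.equivOfEquiv K L f.toRingEquiv).toRingHom, fun r => ?_⟩
  have h1 := IsAlgClosure.equivOfEquiv_algebraMap K L f.toRingEquiv (algebraMap R _ r)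
  have h2 : f (algebraMap R _ r) = algebraMap R _ r := f.commutes r
  have h3 : f.toRingEquiv (algebraMap R _ r) = algebraMap R _ r := h2
  rw [h3] at h1
  exact h1

variable {Ω : Type} [Field Ω] [CharZero Ω]

/-- The complex number `z` is a complex conjugate of `a`: both are roots of the same polynomials
with rational coefficients. -/
def IsConj (a : Ω) (z : ℂ) : Prop := ∀ P : ℚ[X], aeval a P = 0 ↔ aeval z P = 0

/-- `a` is an algebraic number all of whose complex conjugates have absolute value `c`. -/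
def PureNumber (c : ℝ) (a : Ω) : Prop :=
  IsAlgebraic ℚ a ∧ ∀ z : ℂ, aeval z (minpoly ℚ a) = 0 → ‖z‖ = c

theorem isConj_map {a : Ω} (f : Ω →+* ℂ) : IsConj a (f a) := by
  intro P
  have h : f (aeval a P) = aeval (f a) P := by
    rw [aeval_def, aeval_def, hom_eval₂]
    congr 1
    exact Subsingleton.elim _ _
  rw [← h]
  exact (map_eq_zero f).symm

theorem IsConj.pow {a : Ω} {z : ℂ} (h : IsConj a z) (n : ℕ) : IsConj (a ^ n) (z ^ n) := by
  intro P
  have := h (P.comp (X ^ n))
  simpa [aeval_comp] using this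

theorem exists_embedding [IsAlgClosed Ω] (hΩ : #Ω = 𝔠) {a : Ω} {z : ℂ} (h : IsConj a z) :
    ∃ f : Ω →+* ℂ, f a = z := by
  let A : Subalgebra ℚ Ω := (aeval a : ℚ[X] →ₐ[ℚ] Ω).range
  have hinj : ∀ P Q : ℚ[X], aeval a P = aeval a Q → aeval z P = aeval z Q := by
    intro P Q hPQ
    have h1 : aeval a (P - Q) = 0 := by simp [hPQ]
    have h2 := (h _).1 h1
    rw [map_sub] at h2
    exact sub_eq_zero.1 h2
  let g : A →+* ℂ :=
    { toFun := fun x => aeval z x.2.choose
      map_one' := by
        have := (1 : A).2.choose_spec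
        have h1 := hinj (1 : A).2.choose 1 (by rw [map_one]; exact this)
        rw [h1, map_one]
      map_mul' := fun x y => by
        have hx := x.2.choose_spec
        have hy := y.2.choose_spec
        have hxy := (x * y).2.choose_spec
        have h1 := hinj (x * y).2.choose (x.2.choose * y.2.choose) (by
          rw [map_mul]
          exact hxy.trans (congrArg₂ (· * ·) hx hy).symm)
        rw [h1, map_mul]
      map_zero' := by
        have := (0 : A).2.choose_spec
        have h1 := hinj (0 : A).2.choose 0 (by rw [map_zero]; exact this)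
        rw [h1, map_zero]
      map_add' := fun x y => by
        have hx := x.2.choose_spec
        have hy := y.2.choose_spec
        have hxy := (x + y).2.choose_spec
        have h1 := hinj (x + y).2.choose (x.2.choose + y.2.choose) (by
          rw [map_add]
          exact hxy.trans (congrArg₂ (· + ·) hx hy).symm)
        rw [h1, map_add] }
  have hg : ∀ (P : ℚ[X]) (hP : aeval a P ∈ A), g ⟨aeval a P, hP⟩ = aeval z P := by
    intro P hP
    exact hinj _ _ (⟨aeval a P, hP⟩ : A).2.choose_spec
  let _ : Algebra A ℂ := g.toAlgebra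
  have hfa : Function.Injective (algebraMap A ℂ) := by
    intro x y hxy
    obtain ⟨P, hP⟩ := x.2
    obtain ⟨Q, hQ⟩ := y.2
    have hx : x = ⟨aeval a P, ⟨P, rfl⟩⟩ := Subtype.ext hP.symm
    have hy : y = ⟨aeval a Q, ⟨Q, rfl⟩⟩ := Subtype.ext hQ.symm
    rw [hx, hy] at hxy
    have h1 : aeval z P = aeval z Q := by
      rw [← hg P ⟨P, rfl⟩, ← hg Q ⟨Q, rfl⟩]
      exact hxy
    have h2 : aeval z (P - Q) = 0 := by simp [h1]
    have h3 := (h _).2 h2
    rw [map_sub] at h3
    rw [hx, hy]
    exact Subtype.ext (sub_eq_zero.1 h3)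
  have : FaithfulSMul A ℂ := (faithfulSMul_iff_algebraMap_injective A ℂ).2 hfa
  have : FaithfulSMul A Ω :=
    (faithfulSMul_iff_algebraMap_injective A Ω).2 Subtype.val_injective
  have hA : #A ≤ ℵ₀ := by
    have h1 : Function.Surjective (fun P : ℚ[X] => (⟨aeval a P, ⟨P, rfl⟩⟩ : A)) := by
      rintro ⟨x, P, hP⟩
      exact ⟨P, Subtype.ext hP⟩
    refine (Cardinal.mk_le_of_surjective h1).trans (Polynomial.cardinalMk_le_max.trans ?_)
    simp
  obtain ⟨f, hf⟩ := exists_algHom (R := A) (K := Ω) (L := ℂ) hA (by rw [hΩ]; exact aleph0_lt_continuum)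
    (by rw [hΩ, mk_complex])
  refine ⟨f, ?_⟩
  have h1 := hf ⟨aeval a (X : ℚ[X]), ⟨X, rfl⟩⟩
  have h2 : algebraMap A ℂ ⟨aeval a (X : ℚ[X]), ⟨X, rfl⟩⟩ = z :=
    (hg X ⟨X, rfl⟩).trans (aeval_X z)
  rw [h2] at h1
  rw [← h1]
  exact congrArg f (aeval_X a).symm

theorem IsConj.of_root {a : Ω} (ha : IsAlgebraic ℚ a) {z : ℂ}
    (h : aeval z (minpoly ℚ a) = 0) : IsConj a z := by
  have hint : IsIntegral ℚ a := ha.isIntegral
  have hz : minpoly ℚ a = minpoly ℚ z :=
    minpoly.eq_of_irreducible_of_monic (minpoly.irreducible hint) h (minpoly.monic hint)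
  intro P
  rw [← minpoly.dvd_iff, ← minpoly.dvd_iff, hz]

theorem exists_transcendental_norm_ne (c : ℝ) : ∃ z : ℂ, Transcendental ℚ z ∧ ‖z‖ ≠ c := by
  have h0 : Transcendental ℤ (liouvilleNumber (2 : ℕ)) := transcendental_liouvilleNumber le_rfl
  have h1 : Transcendental ℚ (liouvilleNumber (2 : ℕ)) := fun h =>
    h0 ((IsFractionRing.isAlgebraic_iff ℤ ℚ ℝ).2 h)
  have h2 : ∀ x : ℝ, Transcendental ℚ x → Transcendental ℚ (x : ℂ) := fun x hx h =>
    hx ((isAlgebraic_algebraMap_iff (algebraMap ℝ ℂ).injective).1 h)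
  by_cases hc : ‖((liouvilleNumber (2 : ℕ) : ℝ) : ℂ)‖ = c
  · refine ⟨((2 * liouvilleNumber (2 : ℕ) : ℝ) : ℂ), h2 _ fun h => h1 ?_, ?_⟩
    · have h3 : IsAlgebraic ℚ ((1 / 2 : ℚ) : ℝ) := isAlgebraic_algebraMap (1 / 2 : ℚ)
      have h4 := h3.mul h
      have h5 : ((1 / 2 : ℚ) : ℝ) * (2 * liouvilleNumber (2 : ℕ)) = liouvilleNumber (2 : ℕ) := by
        push_cast
        ring
      rwa [h5] at h4
    · have h3 : ((2 * liouvilleNumber (2 : ℕ) : ℝ) : ℂ) = 2 * ((liouvilleNumber (2 : ℕ) : ℝ) : ℂ) := by
        push_cast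
        ring
      rw [h3, norm_mul, hc]
      intro h4
      have h5 : c = 0 := by
        have : ‖(2 : ℂ)‖ = 2 := by simp
        rw [this] at h4
        linarith
      rw [h5, norm_eq_zero] at hc
      apply h2 _ h1
      rw [hc]
      exact isAlgebraic_zero
  · exact ⟨_, h2 _ h1, hc⟩

/-- An element is an algebraic number with all complex conjugates of absolute value `c` if and
only if all its complex conjugates have absolute value `c`. -/
theorem pureNumber_iff {c : ℝ} {a : Ω} : PureNumber c a ↔ ∀ z, IsConj a z → ‖z‖ = c := by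
  constructor
  · rintro ⟨-, h⟩ z hz
    exact h z ((hz _).1 (minpoly.aeval ℚ a))
  · intro h
    by_cases ha : IsAlgebraic ℚ a
    · exact ⟨ha, fun z hz => h z (IsConj.of_root ha hz)⟩
    · exfalso
      obtain ⟨z, hz, hc⟩ := exists_transcendental_norm_ne c
      refine hc (h z fun P => ?_)
      constructor
      · intro hP
        by_cases hP0 : P = 0
        · rw [hP0, map_zero]
        · exact absurd ⟨P, hP0, hP⟩ ha
      · intro hP
        by_cases hP0 : P = 0
        · rw [hP0, map_zero]
        · exact absurd ⟨P, hP0, hP⟩ hz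

/-- It suffices to consider the images under all embeddings. -/
theorem pureNumber_of_forall [IsAlgClosed Ω] (hΩ : #Ω = 𝔠) {c : ℝ} {a : Ω}
    (h : ∀ f : Ω →+* ℂ, ‖f a‖ = c) : PureNumber c a := by
  rw [pureNumber_iff]
  intro z hz
  obtain ⟨f, rfl⟩ := exists_embedding hΩ hz
  exact h f

end Pool.Agent.U644.NC
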